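import Pool.Agent.N596.KC.Asym

/-!
# Clusters and inner products in large spherical codes and kissing configurations

A cluster of level `s` of a finite set of unit vectors is a subset whose mutual inner products are
greater than `s`. The exponent of the largest codes of angular distance `≥ θ` all of whose clusters
of level `cos φ` have subexponential size is determined for all `θ, φ` with `cos φ ≤ cos² θ`; it is
`-(1/2) log_2 (1 - cos φ)`, whatever `θ` is. For kissing configurations (`θ = π/3`) and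
`cos φ = 1/4` this is Wyner's exponent `log_2 (2/√3) = 0.2075...`. Consequently the near-optimal
kissing configurations, and all those which reach Wyner's bound, have exponentially large clusters
of every level `s < 1/4`, and a sequence which beats Wyner's exponent has exponentially large
clusters of some level `s > 1/4`. They have at least linearly many inner products in `(s, 1)`, and
linearly many inner products suffice for Wyner's exponent.
-/

open MeasureTheory Metric Filter Set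
open scoped Topology InnerProductSpace
open Pool.Agent.H818R2

namespace Pool.Agent.Results.MP_b5f63d_co.ClusterExponentCodes

/-- Every set of points of `C` with mutual inner products greater than `s` has at most `K`
points. -/
def ClustersLE {n : ℕ} (C : Finset (EuclideanSpace ℝ (Fin n))) (s : ℝ) (K : ℕ) : Prop :=
  ∀ Q : Finset (EuclideanSpace ℝ (Fin n)), Q ⊆ C →
    (∀ x ∈ Q, ∀ y ∈ Q, x ≠ y → s < ⟪x, y⟫_ℝ) → Q.card ≤ K

/-- `C` has a subset of at least `t` points with mutual inner products greater than `s`. -/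
def HasCluster {n : ℕ} (C : Finset (EuclideanSpace ℝ (Fin n))) (s t : ℝ) : Prop :=
  ∃ Q ⊆ C, (∀ x ∈ Q, ∀ y ∈ Q, x ≠ y → s < ⟪x, y⟫_ℝ) ∧ t ≤ Q.card

/-- The largest size of a set of unit vectors of `ℝ^n` with pairwise angles at least `θ` in which
every subset with pairwise angles less than `φ` has at most `K` points. -/
noncomputable def clusterCode (n : ℕ) (θ φ : ℝ) (K : ℕ) : ℕ :=
  sSup {m | ∃ P : Finset (EuclideanSpace ℝ (Fin n)), IsSphCode n θ P ∧
    ClustersLE P (Real.cos φ) K ∧ P.card = m}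

/-- The set of the inner products of distinct points of `C`. -/
def innerProducts {n : ℕ} (C : Finset (EuclideanSpace ℝ (Fin n))) : Set ℝ :=
  {d | ∃ x ∈ C, ∃ y ∈ C, x ≠ y ∧ ⟪x, y⟫_ℝ = d}

/-- `C` has a cluster of level `s` with at least `2 ^ (η n)` points and more than `η n` inner
products greater than `s`. -/
def Rich {n : ℕ} (C : Finset (EuclideanSpace ℝ (Fin n))) (s η : ℝ) : Prop :=
  HasCluster C s ((2 : ℝ) ^ (η * n)) ∧
    ∀ r : ℕ, (innerProducts C ∩ Ioi s).encard ≤ r → η * n < r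

lemma rich_of {n : ℕ} {C : Finset (EuclideanSpace ℝ (Fin n))} {s η : ℝ}
    (h : Pool.Agent.N596.KC.Rich C s η) : Rich C s η := by
  refine ⟨h.1, fun r hr => h.2 r ?_⟩
  have e : Pool.Agent.N596.KC.ipsAbove C s = innerProducts C ∩ Ioi s := by
    ext d
    simp only [Pool.Agent.N596.KC.ipsAbove, innerProducts, mem_inter_iff, mem_ofPred_eq, mem_Ioi]
    tauto
  rw [e]; exact hr

/-- Near-optimal kissing configurations contain exponentially many points with acute angles. -/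
lemma kissing_acute :
    ∀ᶠ n : ℕ in atTop, ∀ P : Finset (EuclideanSpace ℝ (Fin n)), IsSphCode n (Real.pi / 3) P →
      (2 : ℝ) ^ (-(1 / 1000 : ℝ) * n) * kissing n ≤ P.card →
      HasCluster P 0 ((2 : ℝ) ^ ((1 / 64 : ℝ) * n)) := by
  have hpi := Real.pi_pos
  have hlog : -Real.logb 2 (Real.sin (Real.pi / 3)) = 1 / 2 * Real.logb 2 (4 / 3) := by
    have h1 : Real.sin (Real.pi / 3) ^ 2 = 3 / 4 := by
      rw [Real.sin_pi_div_three, div_pow, Real.sq_sqrt (by norm_num)]; norm_num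
    have h2 : Real.logb 2 (Real.sin (Real.pi / 3) ^ 2) = Real.logb 2 (3 / 4) := by rw [h1]
    rw [Real.logb_pow] at h2
    have h3 : Real.logb 2 (4 / 3) = -Real.logb 2 (3 / 4) := by
      rw [← Real.logb_inv]; norm_num
    rw [h3]
    push_cast at h2
    linarith
  set c : ℝ := 1 / 2 * Real.logb 2 (4 / 3) - 1 / 640 with hc
  -- the numerical inequality
  have hnum : (5 : ℝ) / 26 < Real.logb 2 (8 / 7) := by
    rw [Real.lt_logb_iff_rpow_lt (by norm_num) (by norm_num)]
    have h1 : ((2 : ℝ) ^ ((5 : ℝ) / 26)) ^ 26 < ((8 : ℝ) / 7) ^ 26 := by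
      rw [← Real.rpow_natCast, ← Real.rpow_mul (by norm_num)]
      have : (5 : ℝ) / 26 * ((26 : ℕ) : ℝ) = ((5 : ℕ) : ℝ) := by norm_num
      rw [this, Real.rpow_natCast]
      norm_num
    exact lt_of_pow_lt_pow_left₀ 26 (by norm_num) h1
  have hlog2 : Real.logb 2 (4 / 3) = Real.logb 2 (8 / 7) + Real.logb 2 (7 / 6) := by
    rw [← Real.logb_mul (by norm_num) (by norm_num)]; norm_num
  have h1 := Pool.Agent.N596.KC.cluster_m (s0 := 0) (κ := 1 / 64) (c := c) (m := 6) le_rfl one_pos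
    (by norm_num) (by norm_num) (by
      have e : (((6 : ℕ) : ℝ) + 1) / (((6 : ℕ) : ℝ) * (1 - 0)) = 7 / 6 := by norm_num
      rw [e, hc, hlog2]
      push_cast
      linarith)
  have h2 := Pool.Agent.N596.KC.pow_le_sphMax (θ := Real.pi / 3) (c := c + 1 / 1000) (by positivity)
    (by linarith) (by rw [hlog, hc]; linarith)
  filter_upwards [h1, h2] with n hn1 hn2 P hP hd
  apply hn1 P hP.1
  refine le_trans ?_ hd
  calc (2 : ℝ) ^ (c * n) = (2 : ℝ) ^ (-(1 / 1000 : ℝ) * n) * (2 : ℝ) ^ ((c + 1 / 1000) * n) := by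
        rw [← Real.rpow_add (by norm_num)]; congr 1; ring
    _ ≤ _ := mul_le_mul_of_nonneg_left hn2 (by positivity)

theorem result :
    -- the exponent of the codes with clusters of subexponential size
    (∀ θ φ : ℝ, 0 < θ → θ ≤ Real.pi / 2 → 0 < φ → φ ≤ Real.pi / 2 →
      Real.cos φ ≤ Real.cos θ ^ 2 → ∀ K : ℕ → ℕ, Tendsto K atTop atTop →
      Tendsto (fun n : ℕ => Real.logb 2 (K n) / n) atTop (𝓝 0) →
      Tendsto (fun n : ℕ => Real.logb 2 (clusterCode n θ φ (K n)) / n) atTop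
        (𝓝 (-(1 / 2) * Real.logb 2 (1 - Real.cos φ)))) ∧
    -- it is reached, up to `ε`, by codes with bounded clusters
    (∀ θ φ : ℝ, 0 < θ → θ ≤ Real.pi / 2 → 0 < φ → φ ≤ Real.pi / 2 →
      Real.cos φ ≤ Real.cos θ ^ 2 → ∀ ε : ℝ, 0 < ε → ∃ K : ℕ, ∀ᶠ n : ℕ in atTop,
      (2 : ℝ) ^ ((-(1 / 2) * Real.logb 2 (1 - Real.cos φ) - ε) * n) ≤ clusterCode n θ φ K) ∧
    -- the quantitative relation between the size of a set and the size of its clusters
    (∀ (s κ c : ℝ) (m : ℕ), 0 ≤ s → s < 1 → 0 ≤ κ → 1 ≤ m →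
      m * κ + 1 / 2 * Real.logb 2 ((m + 1) / (m * (1 - s))) < c →
      ∀ᶠ n : ℕ in atTop, ∀ C : Finset (EuclideanSpace ℝ (Fin n)), (∀ x ∈ C, ‖x‖ = 1) →
        (2 : ℝ) ^ (c * n) ≤ C.card → HasCluster C s ((2 : ℝ) ^ (κ * n))) ∧
    -- sets of exponent more than `-(1/2) log_2 (1 - s)`
    (∀ s c : ℝ, 0 ≤ s → s < 1 → -(1 / 2) * Real.logb 2 (1 - s) < c → ∃ η : ℝ, 0 < η ∧
      ∀ᶠ n : ℕ in atTop, ∀ C : Finset (EuclideanSpace ℝ (Fin n)), (∀ x ∈ C, ‖x‖ = 1) →
        (2 : ℝ) ^ ((c - η) * n) ≤ C.card → Rich C s η) ∧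
    -- near-optimal codes, unconditionally
    (∀ θ s : ℝ, 0 < θ → θ < Real.pi / 2 → 0 ≤ s → s < Real.cos θ ^ 2 → ∃ η : ℝ, 0 < η ∧
      ∀ᶠ n : ℕ in atTop, ∀ P : Finset (EuclideanSpace ℝ (Fin n)), IsSphCode n θ P →
        (2 : ℝ) ^ (-η * n) * sphMax n θ ≤ P.card → Rich P s η) ∧
    -- near-optimal codes, in terms of the liminf of the exponent
    (∀ θ s : ℝ, 0 ≤ s → s < 1 → -(1 / 2) * Real.logb 2 (1 - s) < liminf (codeRate θ) atTop →
      ∃ η : ℝ, 0 < η ∧ ∀ᶠ n : ℕ in atTop, ∀ P : Finset (EuclideanSpace ℝ (Fin n)),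
        IsSphCode n θ P → (2 : ℝ) ^ (-η * n) * sphMax n θ ≤ P.card → Rich P s η) ∧
    -- near-optimal kissing configurations have many points with pairwise acute angles
    (∀ᶠ n : ℕ in atTop, ∀ P : Finset (EuclideanSpace ℝ (Fin n)), IsSphCode n (Real.pi / 3) P →
      (2 : ℝ) ^ (-(1 / 1000 : ℝ) * n) * kissing n ≤ P.card →
      HasCluster P 0 ((2 : ℝ) ^ ((1 / 64 : ℝ) * n))) ∧
    -- linearly many inner products suffice for the exponent `log_2 (1 / sin θ)`
    (∀ θ ε : ℝ, 0 < θ → θ < Real.pi / 2 → 0 < ε → ∃ C : ℕ, ∀ᶠ n : ℕ in atTop,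
      ∃ P : Finset (EuclideanSpace ℝ (Fin n)), IsSphCode n θ P ∧
        (innerProducts P).encard ≤ ((C * n : ℕ) : ℕ∞) ∧
        (2 : ℝ) ^ (-ε * n) * (1 / Real.sin θ) ^ n ≤ P.card) := by
  refine ⟨fun θ φ h1 h2 h3 h4 h5 K hK hK' =>
      Pool.Agent.N596.KC.cluster_exponent h1 h2 h3 h4 h5 hK hK',
    fun θ φ h1 h2 h3 h4 h5 ε hε => Pool.Agent.N596.KC.bounded_clusters h1 h2 h3 h4 h5 hε,
    fun s κ c m h1 h2 h3 h4 h5 => Pool.Agent.N596.KC.cluster_m h1 h2 h3 h4 h5, ?_, ?_, ?_,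
    kissing_acute, ?_⟩
  · intro s c h1 h2 h3
    obtain ⟨η, hη, h⟩ := Pool.Agent.N596.KC.threshold h1 h2 h3
    refine ⟨η, hη, ?_⟩
    filter_upwards [h] with n hn C hC hd
    exact rich_of (hn C hC hd)
  · intro θ s h1 h2 h3 h4
    obtain ⟨η, hη, h⟩ := Pool.Agent.N596.KC.near_optimal h1 h2 h3 h4
    refine ⟨η, hη, ?_⟩
    filter_upwards [h] with n hn C hC hd
    exact rich_of (hn C hC hd)
  · intro θ s h1 h2 h3
    obtain ⟨η, hη, h⟩ := Pool.Agent.N596.KC.near_optimal_liminf h1 h2 h3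
    refine ⟨η, hη, ?_⟩
    filter_upwards [h] with n hn C hC hd
    exact rich_of (hn C hC hd)
  · intro θ ε h1 h2 hε
    obtain ⟨C, n₀, h⟩ := Pool.Agent.N596.KC.exists_few h1 h2
      (Real.one_lt_rpow (by norm_num : (1 : ℝ) < 2) hε)
    refine ⟨C, ?_⟩
    filter_upwards [eventually_ge_atTop n₀] with n hn
    obtain ⟨P, hP, hPs, hPc⟩ := h n hn
    refine ⟨P, hP, hPs, le_trans (le_of_eq ?_) hPc⟩
    rw [Real.rpow_mul (by norm_num), Real.rpow_natCast, ← mul_pow]
    congr 1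
    rw [Real.rpow_neg (by norm_num), one_div, one_div, mul_inv]

end Pool.Agent.Results.MP_b5f63d_co.ClusterExponentCodes
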