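import Pool.Agent.N549.SG.Main3
import Pool.Agent.N187.SG.SPEC
import Pool.Agent.N187.SG.BES
import Pool.Agent.N80.SG.Rec
import Pool.Agent.N424.SG.Capr
import Pool.Agent.N424.SG.Locs
import Pool.Agent.N434.SG.ROT
import Pool.Agent.N921.SG.LowV
import Pool.Agent.N628.SGE.Main
import Pool.Agent.N344.AB.Canx

/-!
# Random kissing configurations and random spherical codes in high dimension

Points of the unit sphere of `ℝⁿ` with pairwise angles at least `θ`; `θ = π / 3` is the case of
kissing configurations.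
-/

set_option autoImplicit false

namespace Pool.Agent.Results.MP_b5f63d_co.MeanFieldConfigurations

open MeasureTheory

/-- The space `ℝⁿ`. -/
abbrev E (n : ℕ) : Type := EuclideanSpace ℝ (Fin n)

/-- The unit sphere of `ℝⁿ`. -/
abbrev S (n : ℕ) : Set (E n) := Metric.sphere (0 : E n) 1

/-- The uniform probability on the sphere: the normalised surface measure. -/
noncomputable def unif (n : ℕ) : Measure (S n) :=
  ((volume : Measure (E n)).toSphere Set.univ)⁻¹ • (volume : Measure (E n)).toSphere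

/-- The probability that `k` independent uniform points of the sphere have pairwise angles at
least `θ`. -/
noncomputable def prob (n : ℕ) (θ : ℝ) (k : ℕ) : ℝ :=
  (Measure.pi fun _ : Fin k => unif n).real
    {x | ∀ i j, i ≠ j → inner ℝ (x i : E n) (x j : E n) ≤ Real.cos θ}

/-- The partition function at the activity `lam`. -/
noncomputable def Z (n : ℕ) (θ lam : ℝ) : ℝ := ∑' k : ℕ, lam ^ k / k.factorial * prob n θ k

/-- The mean number of points of a random configuration at the activity `lam`. -/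
noncomputable def mean (n : ℕ) (θ lam : ℝ) : ℝ :=
  (∑' k : ℕ, k * (lam ^ k / k.factorial * prob n θ k)) / Z n θ lam

/-- The probability of the open cap of angular radius `θ` around `x₀`. -/
noncomputable def cap (n : ℕ) (θ : ℝ) (x₀ : S n) : ℝ :=
  (unif n).real {y | Real.cos θ < inner ℝ (x₀ : E n) (y : E n)}

/-- The parameter `(1 - sin θ) / (2 sin θ)` of the bound of Kabatiansky and Levenshtein. -/
noncomputable def mu (θ : ℝ) : ℝ := (1 / Real.sin θ - 1) / 2

/-- Half the difference of the exponents of the bounds of Kabatiansky and Levenshtein and of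
Wyner (the exponent of the latter is `- log (sin θ)`). -/
noncomputable def K (θ : ℝ) : ℝ :=
  ((1 + mu θ) * Real.log (1 + mu θ) - mu θ * Real.log (mu θ) + Real.log (Real.sin θ)) / 2

/-- The exponent of the ratio of a cap of angular radius `θ` and of the smallest cap which
contains the intersection of two such caps whose centres are at the angle `θ`. -/
noncomputable def L (θ : ℝ) : ℝ :=
  Real.log ((1 + Real.cos θ) / Real.sqrt (1 + 2 * Real.cos θ))

/-- The window. -/
noncomputable def X (θ : ℝ) : ℝ := min (K θ) (L θ)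

open Pool.Agent.N549.SG in
theorem K_eq (θ : ℝ) (h : 0 < θ) (h1 : θ < Real.pi / 2) : XK (Real.cos θ) = K θ := by
  have hs : 0 < Real.sin θ := Real.sin_pos_of_pos_of_lt_pi h (by linarith [Real.pi_pos])
  have e : Real.sqrt (1 - Real.cos θ ^ 2) = Real.sin θ := by
    rw [← Real.sin_sq θ, Real.sqrt_sq hs.le]
  unfold XK K mu0 mu
  rw [e]

open Pool.Agent.N549.SG in
theorem L_eq (θ : ℝ) (h : 0 < θ) (h1 : θ < Real.pi / 2) : X2 (Real.cos θ) = L θ := by
  have hc : 0 < Real.cos θ := Real.cos_pos_of_mem_Ioo ⟨by linarith, h1⟩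
  have hc1 : Real.cos θ < 1 := by
    rw [← Real.cos_zero]
    exact Real.cos_lt_cos_of_nonneg_of_le_pi_div_two le_rfl h1.le h
  set t := Real.cos θ with ht
  unfold X2 L tp
  congr 1
  have h2 : (0 : ℝ) < 1 + 2 * t := by linarith
  rw [← ht, ← Real.sqrt_div' _ (by
    rw [div_pow, Real.sq_sqrt (by linarith), sub_nonneg, div_le_one (by linarith)]
    nlinarith)]
  have e : (1 - t ^ 2) / (1 - (t / Real.sqrt ((1 + t) / 2)) ^ 2) = ((1 + t) ^ 2) / (1 + 2 * t) := by
    rw [div_pow, Real.sq_sqrt (by linarith)]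
    have h3 : (1 + t) / 2 - t ^ 2 ≠ 0 := by
      have : 0 < (1 + t) / 2 - t ^ 2 := by nlinarith
      exact this.ne'
    have h4 : (1 : ℝ) + t ≠ 0 := by linarith
    have h5 : 1 - t ^ 2 / ((1 + t) / 2) = (1 - t) * (1 + 2 * t) / (1 + t) := by
      field_simp
      ring
    rw [h5]
    have h6 : (1 : ℝ) - t ≠ 0 := by linarith
    field_simp
    ring
  rw [e, Real.sqrt_div (by positivity), Real.sqrt_sq (by linarith)]

theorem K_pos (θ : ℝ) (h : 0 < θ) (h1 : θ < Real.pi / 2) : 0 < K θ := by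
  have hs : 0 < Real.sin θ := Real.sin_pos_of_pos_of_lt_pi h (by linarith [Real.pi_pos])
  have hs1 : Real.sin θ < 1 := by
    rw [← Real.sin_pi_div_two]
    exact Real.sin_lt_sin_of_lt_of_le_pi_div_two (by linarith) le_rfl h1
  have hm : 0 < mu θ := by
    unfold mu
    have : 1 < 1 / Real.sin θ := by rw [lt_div_iff₀ hs]; linarith
    linarith
  have e : Real.sin θ = 1 / (1 + 2 * mu θ) := by
    unfold mu
    field_simp
    ring
  unfold K
  set m := mu θ with hmd
  rw [e, one_div, Real.log_inv]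
  have k1 : m / (1 + m) ≤ m * (Real.log (1 + m) - Real.log m) := by
    have h2 : Real.log (1 + m) - Real.log m = - Real.log (m / (1 + m)) := by
      rw [Real.log_div hm.ne' (by positivity)]
      ring
    have h3 := Real.log_le_sub_one_of_pos (show 0 < m / (1 + m) by positivity)
    have h4 : 1 / (1 + m) ≤ - Real.log (m / (1 + m)) := by
      have : m / (1 + m) - 1 = - (1 / (1 + m)) := by field_simp; ring
      linarith
    rw [h2]
    calc m / (1 + m) = m * (1 / (1 + m)) := by ring
      _ ≤ _ := mul_le_mul_of_nonneg_left h4 hm.le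
  have k2 : Real.log (1 + 2 * m) - Real.log (1 + m) < m / (1 + m) := by
    rw [← Real.log_div (by positivity) (by positivity)]
    have h3 := Real.log_lt_sub_one_of_pos (show 0 < (1 + 2 * m) / (1 + m) by positivity) (by
      intro h'
      rw [div_eq_one_iff_eq (by positivity)] at h'
      linarith)
    have : (1 + 2 * m) / (1 + m) - 1 = m / (1 + m) := by field_simp; ring
    linarith
  have : 0 < (1 + m) * Real.log (1 + m) - m * Real.log m + -Real.log (1 + 2 * m) := by
    have e2 : (1 + m) * Real.log (1 + m) - m * Real.log m + -Real.log (1 + 2 * m) =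
      m * (Real.log (1 + m) - Real.log m) - (Real.log (1 + 2 * m) - Real.log (1 + m)) := by ring
    rw [e2]
    linarith
  linarith

theorem L_pos (θ : ℝ) (h : 0 < θ) (h1 : θ < Real.pi / 2) : 0 < L θ := by
  have hc : 0 < Real.cos θ := Real.cos_pos_of_mem_Ioo ⟨by linarith, h1⟩
  unfold L
  refine Real.log_pos ?_
  rw [lt_div_iff₀ (Real.sqrt_pos.2 (by linarith)), one_mul, Real.sqrt_lt' (by linarith)]
  nlinarith

/-- The window for kissing configurations. -/
theorem X_kiss : X (Real.pi / 3) = Real.log (3 / (2 * Real.sqrt 2)) := by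
  have hL : L (Real.pi / 3) = Real.log (3 / (2 * Real.sqrt 2)) := by
    unfold L
    rw [Real.cos_pi_div_three]
    congr 1
    have h2 : (0 : ℝ) < Real.sqrt 2 := by positivity
    have : (1 : ℝ) + 2 * (1 / 2) = 2 := by norm_num
    rw [this]
    field_simp
    norm_num
  unfold X
  rw [hL]
  refine min_eq_right ?_
  -- numerics
  have h3 : (0 : ℝ) < Real.sqrt 3 := by positivity
  have hs3 := Real.sq_sqrt (show (0 : ℝ) ≤ 3 by norm_num)
  have hs3l : (1.732 : ℝ) < Real.sqrt 3 := by
    rw [Real.lt_sqrt (by norm_num)]; norm_num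
  have hs3u : Real.sqrt 3 < 1.73206 := by
    rw [Real.sqrt_lt' (by norm_num)]; norm_num
  have hmu : mu (Real.pi / 3) = Real.sqrt 3 / 3 - 1 / 2 := by
    unfold mu
    rw [Real.sin_pi_div_three]
    field_simp
    nlinarith
  have hm1 : (0.0773 : ℝ) < mu (Real.pi / 3) := by rw [hmu]; linarith
  have hm2 : mu (Real.pi / 3) < 0.0774 := by rw [hmu]; linarith
  unfold K
  rw [Real.sin_pi_div_three]
  set m := mu (Real.pi / 3) with hm
  have hm0 : 0 < m := by linarith
  have l2 := Real.log_two_gt_d9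
  have k1 : m ≤ (1 + m) * Real.log (1 + m) := by
    have h4 := Real.log_le_sub_one_of_pos (show 0 < 1 / (1 + m) by positivity)
    rw [one_div, Real.log_inv] at h4
    have h5 : 1 - (1 + m)⁻¹ ≤ Real.log (1 + m) := by linarith
    calc m = (1 + m) * (1 - (1 + m)⁻¹) := by field_simp; ring
      _ ≤ _ := mul_le_mul_of_nonneg_left h5 (by positivity)
  have k2 : m * (3 * 0.6931 + 1 - 8 * m) ≤ - (m * Real.log m) := by
    have h4 := Real.log_le_sub_one_of_pos (show 0 < 8 * m by positivity)
    rw [Real.log_mul (by norm_num) hm0.ne'] at h4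
    have h5 : Real.log 8 = 3 * Real.log 2 := by
      rw [show (8 : ℝ) = 2 ^ 3 by norm_num, Real.log_pow]; norm_num
    have h6 : 3 * 0.6931 + 1 - 8 * m ≤ - Real.log m := by linarith
    calc m * (3 * 0.6931 + 1 - 8 * m) ≤ m * (- Real.log m) :=
          mul_le_mul_of_nonneg_left h6 hm0.le
      _ = _ := by ring
  have k3 : Real.log (27 / 16) ≤ 0.53 := by
    rw [Real.log_le_iff_le_exp (by norm_num)]
    have h4 := Real.quadratic_le_exp_of_nonneg (show (0 : ℝ) ≤ 0.265 by norm_num)
    have h5 : Real.exp 0.53 = Real.exp 0.265 ^ 2 := by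
      rw [← Real.exp_nat_mul]; norm_num
    rw [h5]
    have h6 : (1 + 0.265 + 0.265 ^ 2 / 2 : ℝ) ^ 2 ≤ Real.exp 0.265 ^ 2 :=
      pow_le_pow_left₀ (by norm_num) h4 2
    refine le_trans ?_ h6
    norm_num
  have k4 : 2 * Real.log (3 / (2 * Real.sqrt 2)) - Real.log (Real.sqrt 3 / 2) =
      Real.log (27 / 16) / 2 := by
    have e1 : 2 * Real.log (3 / (2 * Real.sqrt 2)) = Real.log (9 / 8) := by
      have : (9 / 8 : ℝ) = (3 / (2 * Real.sqrt 2)) ^ 2 := by
        rw [div_pow, mul_pow, Real.sq_sqrt (by norm_num)]; norm_num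
      rw [this, Real.log_pow]
      norm_num
    have e2 : 2 * Real.log (Real.sqrt 3 / 2) = Real.log (3 / 4) := by
      have : (3 / 4 : ℝ) = (Real.sqrt 3 / 2) ^ 2 := by
        rw [div_pow, Real.sq_sqrt (by norm_num)]; norm_num
      rw [this, Real.log_pow]
      norm_num
    have e3 : Real.log (27 / 16) = 2 * Real.log (9 / 8) - Real.log (3 / 4) := by
      have e4 : 2 * Real.log (9 / 8) = Real.log ((9 / 8) ^ 2) := by
        rw [Real.log_pow]; norm_num
      rw [e4, ← Real.log_div (by norm_num) (by norm_num)]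
      norm_num
    linarith
  have k5 : 0.265 ≤ m + m * (3 * 0.6931 + 1 - 8 * m) := by nlinarith
  linarith

open Pool.Agent.N549.SG in
/-- **The mean-field equation of state of random spherical codes and random kissing
configurations.** -/
theorem result :
    (∀ θ : ℝ, 0 < θ → θ < Real.pi / 2 → 0 < X θ ∧ ∀ ε : ℝ, 0 < ε →
      ∃ (a C : ℝ) (n₀ : ℕ), 0 < a ∧ 0 < C ∧ ∀ n : ℕ, n₀ ≤ n → ∀ (x₀ : S n) (Δ : ℝ),
        Δ = cap n θ x₀ → 0 < Δ ∧
        (∀ s : ℝ, 0 < s → s ≤ (X θ - ε) * n →
          |Δ * mean n θ (s * Real.exp s / Δ) - s| ≤ Real.exp (-(a * n)) * s ∧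
          |Δ * Real.log (Z n θ (s * Real.exp s / Δ)) - (s + s ^ 2 / 2)| ≤
            Real.exp (-(a * n)) * s) ∧
        (∀ k : ℕ, Real.exp (-(a * n)) ≤ k * Δ → k * Δ ≤ (X θ - ε) * n →
          0 < prob n θ k ∧
          |Real.log (prob n θ k) + k ^ 2 * Δ / 2| ≤ Real.exp (-(a * n)) * (k ^ 2 * Δ)) ∧
        ∀ k : ℕ, C * n ≤ k * Δ → prob n θ k ≤ Real.exp (-((K θ - ε) * n * k))) ∧
    X (Real.pi / 3) = Real.log (3 / (2 * Real.sqrt 2)) := by
  refine ⟨fun θ h h1 => ⟨lt_min (K_pos θ h h1) (L_pos θ h h1), fun ε hε => ?_⟩, X_kiss⟩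
  have hc : 0 < Real.cos θ := Real.cos_pos_of_mem_Ioo ⟨by linarith, h1⟩
  have hc1 : Real.cos θ < 1 := by
    rw [← Real.cos_zero]
    exact Real.cos_lt_cos_of_nonneg_of_le_pi_div_two le_rfl h1.le h
  obtain ⟨a, C, c₀, ha, hC, key⟩ := main3 Pool.Agent.N187.SG.spec Pool.Agent.N80.SG.rec
    Pool.Agent.N424.SG.Capr.capr Pool.Agent.N424.SG.locs Pool.Agent.N434.SG.rotS
    Pool.Agent.N187.SG.BES.bes Pool.Agent.N921.SG.LowV.lowv Pool.Agent.N628.SGE.ent
    Pool.Agent.N344.AB.canx (Real.cos θ) ε hc hc1 hε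
  refine ⟨a, C, c₀ + 2, ha, hC, fun n hn x₀ Δ hΔ => ?_⟩
  obtain ⟨c, rfl⟩ := Nat.exists_eq_add_of_le' (show 2 ≤ n by omega)
  have hcap : Δ = capVol c (Real.cos θ) := by
    rw [hΔ]
    have h2 := (Pool.Agent.N434.SG.rotS c).2.2 (Real.cos θ) x₀
    have h3 : cap (c + 2) θ x₀ = (sig (c + 2)).real (near (c + 2) (Real.cos θ) x₀) := rfl
    rw [h3, measureReal_def, h2, ENNReal.toReal_ofReal]
    exact measureReal_nonneg
  obtain ⟨u0, u1, u2, u3⟩ := key c (by omega)
  have ecast : ((c + 2 : ℕ) : ℝ) = (c : ℝ) + 2 := by push_cast; ring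
  have eX : XS (Real.cos θ) = X θ := by
    unfold XS X
    rw [K_eq θ h h1, L_eq θ h h1]
  rw [eX] at u1 u2
  rw [K_eq θ h h1] at u3
  rw [ecast, hcap]
  exact ⟨u0, u1, u2, u3⟩

end Pool.Agent.Results.MP_b5f63d_co.MeanFieldConfigurations
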