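import Pool.Agent.N549.DC.Sph2
import Pool.Agent.N519.DC.Lenss
import Pool.Agent.N862.DC.Pairg
import Pool.Agent.N624.DC.Mom2
import Pool.Agent.N767.DC.VAR
import Pool.Agent.Results.MP_b5f63d_co.MeanFieldConfigurations

/-!
# Pair statistics of random kissing configurations and random spherical codes

Random configurations of points of the unit sphere of `ℝⁿ` with pairwise angles at least `θ`
(`θ = π / 3`: kissing configurations). Up to the mean size `(X(θ) - ε) n / Δ`, where `Δ` is the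
probability of a cap of angular radius `θ`, the pairs of points are distributed like pairs of
independent uniform points at an angle at least `θ`, up to exponentially small errors.
-/

set_option autoImplicit false

namespace Pool.Agent.Results.MP_b5f63d_co.PairStatistics

open MeasureTheory

/-- The space `ℝⁿ`. -/
abbrev E (n : ℕ) : Type := EuclideanSpace ℝ (Fin n)

/-- The unit sphere of `ℝⁿ`. -/
abbrev S (n : ℕ) : Set (E n) := Metric.sphere (0 : E n) 1

/-- The uniform probability on the sphere: the normalised surface measure. -/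
noncomputable def unif (n : ℕ) : Measure (S n) :=
  ((volume : Measure (E n)).toSphere Set.univ)⁻¹ • (volume : Measure (E n)).toSphere

/-- The probability that `k` independent uniform points of the sphere have pairwise angles at
least `θ`, and angles at least `θ` with the points of `P`. -/
noncomputable def prob (n : ℕ) (θ : ℝ) (P : Set (S n)) (k : ℕ) : ℝ :=
  (Measure.pi fun _ : Fin k => unif n).real
    {x | (∀ i j, i ≠ j → inner ℝ (x i : E n) (x j : E n) ≤ Real.cos θ) ∧
      ∀ i, ∀ p ∈ P, inner ℝ (x i : E n) (p : E n) ≤ Real.cos θ}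

/-- The partition function at the activity `lam` in the presence of the points of `P`. -/
noncomputable def Z (n : ℕ) (θ lam : ℝ) (P : Set (S n)) : ℝ :=
  ∑' k : ℕ, lam ^ k / k.factorial * prob n θ P k

/-- The mean number of points of the random configuration. -/
noncomputable def mean (n : ℕ) (θ lam : ℝ) : ℝ :=
  (∑' k : ℕ, k * (lam ^ k / k.factorial * prob n θ ∅ k)) / Z n θ lam ∅

/-- The density of the points at `x`. -/
noncomputable def rho1 (n : ℕ) (θ lam : ℝ) (x : S n) : ℝ := lam * Z n θ lam {x} / Z n θ lam ∅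

/-- The joint density of the pairs of points at `x` and `y` (at an angle at least `θ`). -/
noncomputable def rho2 (n : ℕ) (θ lam : ℝ) (x y : S n) : ℝ :=
  lam ^ 2 * Z n θ lam {x, y} / Z n θ lam ∅

open scoped Classical in
/-- The mean number of the ordered pairs of different points of the configuration which belong
to `B`. -/
noncomputable def meanPairs (n : ℕ) (θ lam : ℝ) (B : Set (S n × S n)) : ℝ :=
  (∑' k : ℕ, lam ^ k / k.factorial *
    ∫ x in {x : Fin k → S n | ∀ i j, i ≠ j → inner ℝ (x i : E n) (x j : E n) ≤ Real.cos θ},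
      (Finset.card {p : Fin k × Fin k | p.1 ≠ p.2 ∧ (x p.1, x p.2) ∈ B} : ℝ)
        ∂(Measure.pi fun _ : Fin k => unif n)) / Z n θ lam ∅

/-- The probability of the open cap of angular radius `θ` around `x₀`. -/
noncomputable def cap (n : ℕ) (θ : ℝ) (x₀ : S n) : ℝ :=
  (unif n).real {y | Real.cos θ < inner ℝ (x₀ : E n) (y : E n)}

/-- The parameter `(1 - sin θ) / (2 sin θ)` of the bound of Kabatiansky and Levenshtein. -/
noncomputable def mu (θ : ℝ) : ℝ := (1 / Real.sin θ - 1) / 2

/-- Half the difference of the exponents of the bounds of Kabatiansky and Levenshtein and of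
Wyner (the exponent of the latter is `- log (sin θ)`). -/
noncomputable def K (θ : ℝ) : ℝ :=
  ((1 + mu θ) * Real.log (1 + mu θ) - mu θ * Real.log (mu θ) + Real.log (Real.sin θ)) / 2

/-- The exponent of the ratio of a cap of angular radius `θ` and of the smallest cap which
contains the intersection of two such caps whose centres are at the angle `θ`. -/
noncomputable def L (θ : ℝ) : ℝ :=
  Real.log ((1 + Real.cos θ) / Real.sqrt (1 + 2 * Real.cos θ))

/-- The window. -/
noncomputable def X (θ : ℝ) : ℝ := min (K θ) (L θ)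

theorem X_eq (θ : ℝ) : X θ = MeanFieldConfigurations.X θ := rfl

section aux

open Pool.Agent.N549.SG Pool.Agent.N549.AB Set
open scoped ENNReal

variable {n : ℕ} {θ : ℝ}

theorem key (x y : S n) : inner ℝ (x : E n) (y : E n) ≤ Real.cos θ ↔
    capF n (Real.cos θ) x y = 1 := by
  unfold capF
  split_ifs with h
  · exact ⟨fun h' => absurd h' (not_le.2 h), fun h' => absurd h' zero_ne_one⟩
  · exact ⟨fun _ => rfl, fun _ => not_lt.1 h⟩

theorem set_eq (k : ℕ) :
    {x : Fin k → S n | ∀ i j, i ≠ j → inner ℝ (x i : E n) (x j : E n) ≤ Real.cos θ} =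
      {x | ∀ i j, i < j → capF n (Real.cos θ) (x i) (x j) = 1} := by
  ext x
  simp only [mem_ofPred_eq]
  constructor
  · intro h i j hij
    exact (key _ _).1 (h i j hij.ne)
  · intro h i j hij
    rcases lt_or_gt_of_ne hij with h2 | h2
    · exact (key _ _).2 (h i j h2)
    · rw [real_inner_comm]
      exact (key _ _).2 (h j i h2)

theorem Z_gen [IsProbabilityMeasure (sig n)] (lam : ℝ) (hl : 0 ≤ lam) (P : Set (S n))
    (G : S n → ℝ≥0∞) (hG : Measurable G) (h01 : ∀ x, G x = 0 ∨ G x = 1)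
    (hGP : ∀ x, G x = 1 ↔ ∀ p ∈ P, inner ℝ (x : E n) (p : E n) ≤ Real.cos θ) :
    Z n θ lam P = (Pool.Agent.N549.HG.Z (sig n) (capF n (Real.cos θ))
      (fun y => ENNReal.ofReal lam * G y)).toReal := by
  have h := Pool.Agent.N862.DC.pairg (S n) (sig n) (capF n (Real.cos θ))
    (capF_adm n (Real.cos θ)) (fun x y => by unfold capF; split_ifs <;> simp) G hG h01 lam hl
  refine Eq.trans ?_ h.symm
  unfold Z prob
  refine tsum_congr fun k => ?_
  congr 2
  ext x
  simp only [mem_ofPred_eq]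
  have h1 := Set.ext_iff.1 (set_eq (n := n) (θ := θ) k) x
  simp only [mem_ofPred_eq] at h1
  rw [h1]
  exact and_congr_right fun _ => forall_congr' fun i => (hGP (x i)).symm

theorem capF_meas1 (x : S n) : Measurable (capF n (Real.cos θ) x) :=
  (capF_meas n (Real.cos θ)).of_uncurry_left

theorem Z_one [IsProbabilityMeasure (sig n)] (lam : ℝ) (hl : 0 ≤ lam) (x : S n) :
    Z n θ lam {x} = Pool.Agent.N549.AB.Z1 (sig n) (capF n (Real.cos θ)) lam x := by
  refine Z_gen lam hl {x} (capF n (Real.cos θ) x) (capF_meas1 x)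
    (fun y => by unfold capF; split_ifs <;> simp) (fun y => ?_)
  rw [← key, real_inner_comm]
  simp

theorem Z_two [IsProbabilityMeasure (sig n)] (lam : ℝ) (hl : 0 ≤ lam) (x y : S n) :
    Z n θ lam {x, y} = Pool.Agent.N549.AB.Z2 (sig n) (capF n (Real.cos θ)) lam x y := by
  refine Z_gen lam hl {x, y} (fun z => capF n (Real.cos θ) x z * capF n (Real.cos θ) y z)
    ((capF_meas1 x).mul (capF_meas1 y))
    (fun z => by unfold capF; split_ifs <;> simp) (fun z => ?_)
  have h1 : capF n (Real.cos θ) x z * capF n (Real.cos θ) y z = 1 ↔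
      capF n (Real.cos θ) x z = 1 ∧ capF n (Real.cos θ) y z = 1 := by
    unfold capF
    split_ifs <;> simp
  rw [h1, ← key, ← key, real_inner_comm (z : E n) (x : E n), real_inner_comm (z : E n) (y : E n)]
  simp

theorem prob_empty [IsProbabilityMeasure (sig n)] (k : ℕ) :
    prob n θ ∅ k = pr (sig n) (capF n (Real.cos θ)) k := by
  rw [pr_conf (capF_adm n (Real.cos θ)) (fun x y => by unfold capF; split_ifs <;> simp)]
  unfold prob
  congr 1
  rw [← set_eq]
  ext x
  simp

theorem Z_empty [IsProbabilityMeasure (sig n)] (lam : ℝ) :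
    Z n θ lam ∅ = PZ (sig n) (capF n (Real.cos θ)) lam := by
  unfold Z PZ
  exact tsum_congr fun k => by rw [prob_empty]

theorem mean_eq [IsProbabilityMeasure (sig n)] (lam : ℝ) :
    mean n θ lam = PM (sig n) (capF n (Real.cos θ)) lam := by
  unfold mean PM
  rw [Z_empty]
  congr 1
  exact tsum_congr fun k => by rw [prob_empty]

theorem pairs_eq [IsProbabilityMeasure (sig n)] (lam : ℝ) (B : Set (S n × S n)) :
    meanPairs n θ lam B = PP (sig n) (capF n (Real.cos θ)) lam B /
      PZ (sig n) (capF n (Real.cos θ)) lam := by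
  unfold meanPairs PP
  rw [Z_empty]
  congr 1
  refine tsum_congr fun k => ?_
  rw [set_eq]
  rfl

theorem rho_eq [hp : IsProbabilityMeasure (sig n)] (lam : ℝ) (hl : 0 < lam) (x y : S n) :
    rho2 n θ lam x y =
      gcor (sig n) (capF n (Real.cos θ)) lam x y * (rho1 n θ lam x * rho1 n θ lam y) ∧
    0 < rho1 n θ lam x := by
  have hF := capF_adm n (Real.cos θ)
  have a1 : 1 ≤ Pool.Agent.N549.AB.Z1 (sig n) (capF n (Real.cos θ)) lam x := one_le_Z1 hF lam hl.le x
  have a2 : 1 ≤ Pool.Agent.N549.AB.Z1 (sig n) (capF n (Real.cos θ)) lam y := one_le_Z1 hF lam hl.le y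
  have a3 : 1 ≤ PZ (sig n) (capF n (Real.cos θ)) lam := PZ_ge_one hF lam hl.le
  have b1 : 0 < Pool.Agent.N549.AB.Z1 (sig n) (capF n (Real.cos θ)) lam x := by linarith
  have b2 : 0 < Pool.Agent.N549.AB.Z1 (sig n) (capF n (Real.cos θ)) lam y := by linarith
  have b3 : 0 < PZ (sig n) (capF n (Real.cos θ)) lam := by linarith
  unfold rho2 rho1 gcor
  rw [Z_two lam hl.le, Z_one lam hl.le, Z_one lam hl.le, Z_empty]
  refine ⟨?_, by positivity⟩
  have b1' := b1.ne'
  have b2' := b2.ne'
  have b3' := b3.ne'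
  field_simp

end aux

open Pool.Agent.N549.SG Pool.Agent.N549.AB in
/-- **Pair statistics of random spherical codes and random kissing configurations.** -/
theorem result :
    ∀ θ : ℝ, 0 < θ → θ < Real.pi / 2 → 0 < X θ ∧ ∀ ε : ℝ, 0 < ε →
      ∃ (a : ℝ) (n₀ : ℕ), 0 < a ∧ ∀ n : ℕ, n₀ ≤ n → ∀ (x₀ : S n) (Δ : ℝ), Δ = cap n θ x₀ →
        0 < Δ ∧
        -- (1) the lower bound for the pair correlations
        (∀ s : ℝ, 0 < s → s ≤ (X θ - ε) * n →
          (∀ x y : S n, inner ℝ (x : E n) (y : E n) ≤ Real.cos θ →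
            (1 - Real.exp (-(a * n))) *
              (rho1 n θ (s * Real.exp s / Δ) x * rho1 n θ (s * Real.exp s / Δ) y) ≤
              rho2 n θ (s * Real.exp s / Δ) x y) ∧
          ∀ B : Set (S n × S n), MeasurableSet B →
            (∀ p ∈ B, inner ℝ (p.1 : E n) (p.2 : E n) ≤ Real.cos θ) →
            (1 - Real.exp (-(a * n))) * (mean n θ (s * Real.exp s / Δ) ^ 2 *
              ((unif n).prod (unif n)).real B) ≤ meanPairs n θ (s * Real.exp s / Δ) B) ∧
        -- (2) the upper bound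
        (∀ s : ℝ, 0 < s → s ≤ (X θ / 3 - ε) * n →
          (∀ x y : S n, inner ℝ (x : E n) (y : E n) ≤ Real.cos θ →
            rho2 n θ (s * Real.exp s / Δ) x y ≤ (1 + Real.exp (-(a * n))) *
              (rho1 n θ (s * Real.exp s / Δ) x * rho1 n θ (s * Real.exp s / Δ) y)) ∧
          ∀ B : Set (S n × S n), MeasurableSet B →
            (∀ p ∈ B, inner ℝ (p.1 : E n) (p.2 : E n) ≤ Real.cos θ) →
            meanPairs n θ (s * Real.exp s / Δ) B ≤ (1 + Real.exp (-(a * n))) *
              (mean n θ (s * Real.exp s / Δ) ^ 2 * ((unif n).prod (unif n)).real B)) ∧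
        -- (3) the pair distribution in total variation
        ∀ s : ℝ, Real.exp (-(a * n)) ≤ s → s ≤ (X θ - ε) * n →
          ∀ B : Set (S n × S n), MeasurableSet B →
            (∀ p ∈ B, inner ℝ (p.1 : E n) (p.2 : E n) ≤ Real.cos θ) →
            |meanPairs n θ (s * Real.exp s / Δ) B -
              mean n θ (s * Real.exp s / Δ) ^ 2 * ((unif n).prod (unif n)).real B| ≤
              Real.exp (-(a * n)) * mean n θ (s * Real.exp s / Δ) ^ 2 := by
  intro θ h h1
  refine ⟨lt_min (MeanFieldConfigurations.K_pos θ h h1) (MeanFieldConfigurations.L_pos θ h h1),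
    fun ε hε => ?_⟩
  have hM : S_MOM2 := Pool.Agent.N624.DC.mom2
  have hc : 0 < Real.cos θ := Real.cos_pos_of_mem_Ioo ⟨by linarith, h1⟩
  have hc1 : Real.cos θ < 1 := by
    rw [← Real.cos_zero]
    exact Real.cos_lt_cos_of_nonneg_of_le_pi_div_two le_rfl h1.le h
  obtain ⟨a₁, c₁, ha₁, k1⟩ := Pool.Agent.N549.DC.mainS Pool.Agent.N80.SG.rec
    Pool.Agent.N424.SG.Capr.capr Pool.Agent.N424.SG.locs Pool.Agent.N434.SG.rotS
    Pool.Agent.N187.SG.BES.bes Pool.Agent.N921.SG.LowV.lowv Pool.Agent.N628.SGE.ent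
    Pool.Agent.N187.SG.spec Pool.Agent.N519.DC.lenss (Real.cos θ) ε hc hc1 hε
  obtain ⟨a₂, c₂, ha₂, k2⟩ := Pool.Agent.N549.DC.tvS Pool.Agent.N344.AB.canx
    Pool.Agent.N767.DC.var hM Pool.Agent.N80.SG.rec
    Pool.Agent.N424.SG.Capr.capr Pool.Agent.N424.SG.locs Pool.Agent.N434.SG.rotS
    Pool.Agent.N187.SG.BES.bes Pool.Agent.N921.SG.LowV.lowv Pool.Agent.N628.SGE.ent
    Pool.Agent.N187.SG.spec Pool.Agent.N519.DC.lenss (Real.cos θ) ε hc hc1 hε
  refine ⟨min a₁ a₂, max c₁ c₂ + 2, lt_min ha₁ ha₂, fun n hn x₀ Δ hΔ => ?_⟩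
  obtain ⟨c, rfl⟩ := Nat.exists_eq_add_of_le' (show 2 ≤ n by omega)
  have g1 : c₁ ≤ c := (le_max_left c₁ c₂).trans (by omega)
  have g2 : c₂ ≤ c := (le_max_right c₁ c₂).trans (by omega)
  obtain ⟨-, hprob, hcapm⟩ := Pool.Agent.N434.SG.rotS c
  have hcap : Δ = capVol c (Real.cos θ) := by
    rw [hΔ]
    have h3 : cap (c + 2) θ x₀ = (sig (c + 2)).real (near (c + 2) (Real.cos θ) x₀) := rfl
    rw [h3, measureReal_def, hcapm, ENNReal.toReal_ofReal]
    exact measureReal_nonneg
  obtain ⟨hpos, -⟩ := Pool.Agent.N424.SG.Capr.capr c (Real.cos θ) (Real.cos θ) hc le_rfl hc1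
  have hG := gasS Pool.Agent.N434.SG.rotS c (Real.cos θ) hpos
  have ecast : ((c + 2 : ℕ) : ℝ) = (c : ℝ) + 2 := by push_cast; ring
  have eX : XS (Real.cos θ) = X θ := by
    unfold XS X
    rw [MeanFieldConfigurations.K_eq θ h h1, MeanFieldConfigurations.L_eq θ h h1]
    rfl
  have hn0 : (0 : ℝ) ≤ (c : ℝ) + 2 := by positivity
  have m1 : Real.exp (-(a₁ * ((c : ℝ) + 2))) ≤ Real.exp (-(min a₁ a₂ * ((c : ℝ) + 2))) := by
    rw [Real.exp_le_exp]
    have := mul_le_mul_of_nonneg_right (min_le_left a₁ a₂) hn0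
    linarith
  have m2 : Real.exp (-(a₂ * ((c : ℝ) + 2))) ≤ Real.exp (-(min a₁ a₂ * ((c : ℝ) + 2))) := by
    rw [Real.exp_le_exp]
    have := mul_le_mul_of_nonneg_right (min_le_right a₁ a₂) hn0
    linarith
  obtain ⟨k3, k4⟩ := k1 c g1
  have k5 := k2 c g2
  rw [eX] at k3 k4 k5
  rw [ecast, hcap]
  set Δ' := capVol c (Real.cos θ) with hΔ'
  set e := Real.exp (-(min a₁ a₂ * ((c : ℝ) + 2))) with he
  have hac : ∀ s, ac Δ' s = s * Real.exp s / Δ' := fun s => rfl
  have l3 : ∀ s : ℝ, 0 < s → s ≤ (X θ - ε) * ((c : ℝ) + 2) → ∀ u v : S (c + 2),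
      1 - e ≤ gcor (sig (c + 2)) (capF (c + 2) (Real.cos θ)) (ac Δ' s) u v :=
    fun s hs hsX u v => le_trans (by linarith) (k3 s hs hsX u v)
  have l4 : ∀ s : ℝ, 0 < s → s ≤ (X θ / 3 - ε) * ((c : ℝ) + 2) → ∀ u v : S (c + 2),
      inner ℝ (u : E (c + 2)) (v : E (c + 2)) ≤ Real.cos θ →
      gcor (sig (c + 2)) (capF (c + 2) (Real.cos θ)) (ac Δ' s) u v ≤ 1 + e :=
    fun s hs hsX u v huv => le_trans (k4 s hs hsX u v huv) (by linarith)
  have hB1 : ∀ B : Set (S (c + 2) × S (c + 2)),
      (∀ p ∈ B, inner ℝ (p.1 : E (c + 2)) (p.2 : E (c + 2)) ≤ Real.cos θ) →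
      ∀ p ∈ B, capF (c + 2) (Real.cos θ) p.1 p.2 = 1 := fun B hB p hp => (key _ _).1 (hB p hp)
  refine ⟨hpos, fun s hs hsX => ⟨fun x y _ => ?_, fun B hB hBr => ?_⟩,
    fun s hs hsX => ⟨fun x y hxy => ?_, fun B hB hBr => ?_⟩, fun s hs hsX B hB hBr => ?_⟩
  · obtain ⟨e1, e2⟩ := rho_eq (n := c + 2) (θ := θ) (s * Real.exp s / Δ') (by positivity) x y
    obtain ⟨-, e3⟩ := rho_eq (n := c + 2) (θ := θ) (s * Real.exp s / Δ') (by positivity) y x
    rw [e1]
    exact mul_le_mul_of_nonneg_right (l3 s hs hsX x y) (by positivity)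
  · have := (pairs hM hG s hs B hB (hB1 B hBr) e).1 (fun u v => l3 s hs hsX u v)
    rw [pairs_eq, mean_eq]
    exact this
  · obtain ⟨e1, e2⟩ := rho_eq (n := c + 2) (θ := θ) (s * Real.exp s / Δ') (by positivity) x y
    obtain ⟨-, e3⟩ := rho_eq (n := c + 2) (θ := θ) (s * Real.exp s / Δ') (by positivity) y x
    rw [e1]
    exact mul_le_mul_of_nonneg_right (l4 s hs hsX x y hxy) (by positivity)
  · have := (pairs hM hG s hs B hB (hB1 B hBr) e).2 (fun u v huv => l4 s hs hsX u v ((key _ _).2 huv))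
    rw [pairs_eq, mean_eq]
    exact this
  · have := k5 s (m2.trans hs) hsX B hB (hB1 B hBr)
    rw [pairs_eq, mean_eq]
    exact this.trans (mul_le_mul_of_nonneg_right m2 (by positivity))

end Pool.Agent.Results.MP_b5f63d_co.PairStatistics
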